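import Pool.Agent.H27.MR.Setup
import Pool.Agent.H59.MR.Dens

/-!
# Module RA
-/

set_option autoImplicit false

namespace Pool.Agent.H27.MR

open Finset Filter Topology
open Pool.Agent.H24.MR
open Pool.Agent.H59.MR (ratio tendsto_dens)

open Classical in
/-- A density bound from a counting bound at every length. -/
lemma dens_le_of_bound {U : Ultrafilter ℕ} {N : ℕ → ℕ} (hN : Tendsto N (U : Filter ℕ) atTop)
    (E B : Set ℕ) (hB : dens U N B = 0) (κ s C₁ C₂ : ℝ) (C₃ : ℕ) (hC₂ : 0 ≤ C₂)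
    (h : ∀ n : ℕ, (((range n).filter fun m => m ∈ E).card : ℝ) ≤
      κ * n + s * ((range n).filter fun m => m ∈ B).card + C₁ + C₂ * (Nat.sqrt (n + C₃) : ℝ)) :
    dens U N E ≤ κ := by
  have h1 : Tendsto (fun k => ratio E (N k)) (U : Filter ℕ) (𝓝 (dens U N E)) := tendsto_dens U N E
  have h2 : Tendsto (fun k => ratio B (N k)) (U : Filter ℕ) (𝓝 0) := hB ▸ tendsto_dens U N B
  have hinv : Tendsto (fun n : ℕ => (1 : ℝ) / n) atTop (𝓝 0) := tendsto_one_div_atTop_nhds_zero_nat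
  have hsq : Tendsto (fun n : ℕ => (1 : ℝ) / √(n : ℝ)) atTop (𝓝 0) := by
    have : Tendsto (fun n : ℕ => √(n : ℝ)) atTop atTop :=
      Real.tendsto_sqrt_atTop.comp tendsto_natCast_atTop_atTop
    refine this.inv_tendsto_atTop.congr fun n => ?_
    rw [Pi.inv_apply, one_div]
  have h3 : Tendsto (fun k => κ + s * ratio B (N k) + C₁ * (1 / (N k : ℝ)) +
      C₂ * √(1 + C₃ : ℝ) * (1 / √(N k : ℝ))) (U : Filter ℕ) (𝓝 (κ + s * 0 + C₁ * 0 +
      C₂ * √(1 + C₃ : ℝ) * 0)) :=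
    (((h2.const_mul s).const_add κ).add ((hinv.comp hN).const_mul C₁)).add
      ((hsq.comp hN).const_mul _)
  have h4 : κ + s * 0 + C₁ * 0 + C₂ * √(1 + C₃ : ℝ) * 0 = κ := by ring
  rw [h4] at h3
  refine le_of_tendsto_of_tendsto h1 h3 ?_
  filter_upwards [hN.eventually (eventually_ge_atTop 1)] with k hk
  have hk0 : (0 : ℝ) < N k := by exact_mod_cast hk
  have hk1 : (1 : ℝ) ≤ N k := by exact_mod_cast hk
  have h5 := h (N k)
  unfold ratio
  rw [div_le_iff₀ hk0]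
  refine h5.trans ?_
  have h6 : (Nat.sqrt (N k + C₃) : ℝ) ≤ √(1 + C₃ : ℝ) * √(N k : ℝ) := by
    refine (Real.nat_sqrt_le_real_sqrt).trans ?_
    rw [← Real.sqrt_mul (by positivity)]
    apply Real.sqrt_le_sqrt
    push_cast
    nlinarith [Nat.cast_nonneg (α := ℝ) C₃]
  have h7 : 1 / √(N k : ℝ) * N k = √(N k : ℝ) := by
    have : √(N k : ℝ) ≠ 0 := (Real.sqrt_pos.2 hk0).ne'
    field_simp
    exact (Real.sq_sqrt hk0.le).symm
  calc κ * (N k : ℝ) + s * (((range (N k)).filter fun m => m ∈ B).card : ℝ) + C₁ +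
        C₂ * (Nat.sqrt (N k + C₃) : ℝ) ≤
      κ * (N k : ℝ) + s * (((range (N k)).filter fun m => m ∈ B).card : ℝ) + C₁ +
        C₂ * (√(1 + C₃ : ℝ) * √(N k : ℝ)) := by gcongr
    _ = (κ + s * ((((range (N k)).filter fun m => m ∈ B).card : ℝ) / (N k : ℝ)) +
        C₁ * (1 / (N k : ℝ)) + C₂ * √(1 + C₃ : ℝ) * (1 / √(N k : ℝ))) * (N k : ℝ) := by
      rw [add_mul, add_mul, add_mul, mul_assoc (C₂ * √(1 + C₃ : ℝ)), h7]
      field_simp

/-- the quotient attached to a copy -/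
def nf (a₁ : ℤ) (W A : ℕ) (d : ℤ × ℤ → ℕ) (f : ℤ × ℤ) (y : ℕ) : ℤ :=
  ((y : ℤ) - a₁ * (1 + W * A) - W * f.2) / d f

/-- the constant attached to a copy and an index -/
def cf (a a₁ : ℤ) (W A : ℕ) (f : ℤ × ℤ) : ℤ := (a - a₁) * (1 + W * A) + W * (f.1 * a - f.2)

lemma nf_mul {a₁ : ℤ} {W A : ℕ} {d : ℤ × ℤ → ℕ} {f : ℤ × ℤ} {y : ℕ}
    (h : (d f : ℤ) ∣ ((y : ℤ) - a₁ * (1 + W * A)) - W * f.2) :
    (d f : ℤ) * nf a₁ W A d f y = (y : ℤ) - a₁ * (1 + W * A) - W * f.2 :=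
  Int.mul_ediv_cancel' h

/-- facts at one point -/
lemma fact {r : ℕ} (α : Fin r → ℤ) (i₁ : Fin r) (W A C n₀ : ℕ) (d : ℤ × ℤ → ℕ) (f : ℤ × ℤ)
    (hd2 : 2 ≤ d f) (hdc : (d f : ℤ) = 1 + W * (f.1 + A)) (y : ℕ) (hyC : C < y)
    (hc1 : (W : ℤ) ∣ ((y : ℤ) - α i₁ * (1 + W * A)) - n₀)
    (hc2 : (d f : ℤ) ∣ ((y : ℤ) - α i₁ * (1 + W * A)) - W * f.2)
    (hC1 : ∀ i, |cf (α i) (α i₁) W A f| ≤ C) (hC2 : |α i₁ * (1 + W * A) + W * f.2| ≤ C) :
    (d f : ℤ) * nf (α i₁) W A d f y = (y : ℤ) - α i₁ * (1 + W * A) - W * f.2 ∧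
      (∀ i, (d f : ℤ) * (nf (α i₁) W A d f y + α i) = y + cf (α i) (α i₁) W A f) ∧
      (∀ i, 0 < nf (α i₁) W A d f y + α i) ∧
      0 ≤ nf (α i₁) W A d f y ∧ nf (α i₁) W A d f y < y ∧
      (W : ℤ) ∣ nf (α i₁) W A d f y - n₀ := by
  have h1 := nf_mul hc2
  generalize nf (α i₁) W A d f y = n at *
  have hdpos : (0 : ℤ) < d f := by
    have : 0 < d f := by omega
    exact_mod_cast this
  have hd2' : (2 : ℤ) ≤ d f := by exact_mod_cast hd2
  have hyC' : (C : ℤ) < y := by exact_mod_cast hyC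
  have h2 : ∀ i, (d f : ℤ) * (n + α i) = y + cf (α i) (α i₁) W A f := by
    intro i
    rw [mul_add, h1, hdc, cf]
    ring
  have h3 : ∀ i, 0 < n + α i := by
    intro i
    have h4 := (abs_le.1 (hC1 i)).1
    have h5 : 0 < (d f : ℤ) * (n + α i) := by
      rw [h2 i]
      linarith
    exact (pos_iff_pos_of_mul_pos h5).1 hdpos
  have h4 := abs_le.1 hC2
  have h5 : 0 ≤ n := by
    by_contra hneg
    push Not at hneg
    have h6 : (d f : ℤ) * n < 0 := mul_neg_of_pos_of_neg hdpos hneg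
    rw [h1] at h6
    linarith
  refine ⟨h1, h2, h3, h5, ?_, ?_⟩
  · by_contra hge
    push Not at hge
    have h6 : 2 * (y : ℤ) ≤ (d f : ℤ) * n := by
      have : (0 : ℤ) ≤ y := Int.natCast_nonneg y
      exact mul_le_mul hd2' hge this hdpos.le
    rw [h1] at h6
    linarith
  · have h6 : (W : ℤ) ∣ (d f : ℤ) * n - n₀ := by
      rw [h1]
      have h7 : (W : ℤ) ∣ W * f.2 := Dvd.intro _ rfl
      have h8 := dvd_sub hc1 h7
      have h9 : (y : ℤ) - α i₁ * (1 + W * A) - n₀ - W * f.2 =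
        (y : ℤ) - α i₁ * (1 + W * A) - W * f.2 - n₀ := by ring
      rwa [h9] at h8
    have h7 : (W : ℤ) ∣ W * ((f.1 + A) * n) := Dvd.intro _ rfl
    have h8 := dvd_sub h6 h7
    have h9 : (d f : ℤ) * n - n₀ - W * ((f.1 + A) * n) = n - n₀ := by
      rw [hdc]
      ring
    rwa [h9] at h8

/-- squarefreeness at one point -/
lemma squarefree_of {w W : ℕ} (hW : ∀ p : ℕ, p.Prime → p ≤ w → p ^ 2 ∣ W) {n a : ℤ} {n₀ : ℕ}
    (hn : (W : ℤ) ∣ n - n₀) (hpos : 0 < n + a) (hb1 : 0 < (n₀ : ℤ) + a)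
    (hb2 : Squarefree ((n₀ : ℤ) + a).toNat)
    (h : ∀ p : ℕ, p.Prime → w < p → ¬ (p : ℤ) ^ 2 ∣ n + a) : Squarefree (n + a).toNat := by
  rw [Nat.squarefree_iff_prime_squarefree]
  intro p hp hpp
  have h7 : (p : ℤ) ^ 2 ∣ n + a := by
    have h8 : ((p * p : ℕ) : ℤ) ∣ (((n + a).toNat : ℕ) : ℤ) := Int.natCast_dvd_natCast.2 hpp
    rw [Int.toNat_of_nonneg hpos.le] at h8
    rw [pow_two]
    exact_mod_cast h8
  by_cases hpw : p ≤ w
  · have h8 : (p : ℤ) ^ 2 ∣ (W : ℤ) := by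
      have := hW p hp hpw
      exact_mod_cast Int.natCast_dvd_natCast.2 this
    have h9 := dvd_sub h7 (h8.trans hn)
    have h10 : n + a - (n - n₀) = (n₀ : ℤ) + a := by ring
    rw [h10] at h9
    have h11 : p * p ∣ ((n₀ : ℤ) + a).toNat := by
      have h12 : ((p * p : ℕ) : ℤ) ∣ ((((n₀ : ℤ) + a).toNat : ℕ) : ℤ) := by
        rw [Int.toNat_of_nonneg hb1.le]
        rw [pow_two] at h9
        exact_mod_cast h9
      exact Int.natCast_dvd_natCast.1 h12
    exact hp.one_lt.ne' (Nat.isUnit_iff.1 (hb2 p h11))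
  · exact h p hp (by omega) h7

open Classical in
/-- The counting step. -/
lemma count_step {r : ℕ} (α : Fin r → ℤ) (i₁ : Fin r) (S : Finset (ℤ × ℤ)) (w W A Q u₀ K C P : ℕ)
    (d : ℤ × ℤ → ℕ) (t : ℝ) (B E : Set ℕ) (hw : 0 < w) (hQ : 0 < Q) (hP : 0 < P)
    (hPQ : P ≡ 1 [MOD Q])
    (hsq : ∀ p : ℕ, p.Prime → w < p → ¬ p ^ 2 ∣ Q)
    (hC : ∀ f ∈ S, ∀ i, |cf (α i) (α i₁) W A f| ≤ C)
    (hE : E = {y | y ≡ u₀ [MOD Q] ∧ P ∣ y ∧ lam y * lam (y + P * K) ≠ t})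
    (hinj : ∀ f ∈ S, ∀ u v : ℕ, u ≡ u₀ [MOD Q] → v ≡ u₀ [MOD Q] → C < u → C < v →
      (nf (α i₁) W A d f u).toNat = (nf (α i₁) W A d f v).toNat → u = v)
    (hlt : ∀ f ∈ S, ∀ u : ℕ, u ≡ u₀ [MOD Q] → C < u → (nf (α i₁) W A d f u).toNat < u)
    (hexc : ∀ y : ℕ, y ≡ u₀ [MOD Q] → C < y → lam y * lam (y + K) ≠ t →
      (∃ f ∈ S, (nf (α i₁) W A d f y).toNat ∈ B) ∨
      (∃ f ∈ S, ∃ i, ∃ p : ℕ, p.Prime ∧ w < p ∧ (p : ℤ) ^ 2 ∣ (y : ℤ) + cf (α i) (α i₁) W A f))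
    (κ₀ : ℝ) (hκ₀ : κ₀ = 1 / w + ∑ p ∈ Q.primeFactors.filter (fun p => w < p), (1 : ℝ) / p)
    (n : ℕ) :
    (((range n).filter fun m => m ∈ E).card : ℝ) ≤
      ((S.card : ℝ) * r * κ₀ / (P * Q)) * n + (S.card : ℝ) * ((range n).filter fun m => m ∈ B).card +
        ((C + 1) + (S.card : ℝ) + (S.card : ℝ) * r * κ₀ / Q) +
          ((S.card : ℝ) * r) * (Nat.sqrt (n + (C + 1)) : ℝ) := by
  have hκ₀0 : 0 ≤ κ₀ := by
    rw [hκ₀]
    positivity
  have hQR : (0 : ℝ) < Q := by exact_mod_cast hQ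
  have hPR : (0 : ℝ) < P := by exact_mod_cast hP
  set M := n / P + 1 with hM
  have hMn : M ≤ n + 1 := by
    rw [hM]
    have := Nat.div_le_self n P
    omega
  -- pass to `u = y / P`
  set G : Finset ℕ := (range M).filter fun u => u = 0 ∨
    (u ≡ u₀ [MOD Q] ∧ lam u * lam (u + K) ≠ t) with hG
  have hEG : ((range n).filter fun m => m ∈ E).card ≤ G.card := by
    refine Finset.card_le_card_of_injOn (fun y => y / P) ?_ ?_
    · intro y hy
      rw [Finset.mem_coe, mem_filter, mem_range, hE] at hy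
      obtain ⟨hyn, hyc, ⟨u, rfl⟩, hyl⟩ := hy
      rw [Finset.mem_coe, hG, mem_filter, mem_range]
      simp only [Nat.mul_div_cancel_left u hP]
      refine ⟨?_, ?_⟩
      · rw [hM]
        have : u ≤ n / P := (Nat.le_div_iff_mul_le hP).2 (by rw [mul_comm]; exact hyn.le)
        omega
      · rcases Nat.eq_zero_or_pos u with hu | hu
        · exact Or.inl hu
        · right
          refine ⟨?_, ?_⟩
          · have h1 : P * u ≡ 1 * u [MOD Q] := Nat.ModEq.mul_right u hPQ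
            rw [one_mul] at h1
            exact h1.symm.trans hyc
          · intro h
            apply hyl
            rw [← h, ← Nat.mul_add]
            rw [lam_eq_sgn, lam_eq_sgn, lam_eq_sgn, lam_eq_sgn, om_mul hP.ne' hu.ne',
              om_mul hP.ne' (by omega), ← sgn_add, ← sgn_add]
            congr 1
            have h2 : om P + om P = 0 := CharTwo.add_self_eq_zero _
            linear_combination h2
    · intro y hy z hz hyz
      rw [Finset.mem_coe, mem_filter, hE] at hy hz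
      obtain ⟨-, -, ⟨u, rfl⟩, -⟩ := hy
      obtain ⟨-, -, ⟨v, rfl⟩, -⟩ := hz
      simp only [Nat.mul_div_cancel_left _ hP] at hyz
      rw [hyz]
  set T1 : ℤ × ℤ → Finset ℕ := fun f => (range M).filter fun u =>
    (u ≡ u₀ [MOD Q] ∧ C < u) ∧ (nf (α i₁) W A d f u).toNat ∈ B with hT1
  set T2 : (ℤ × ℤ) × Fin r → Finset ℕ := fun x => (range M).filter fun u =>
    (u ≡ u₀ [MOD Q] ∧ C < u) ∧
      ∃ p : ℕ, p.Prime ∧ w < p ∧ (p : ℤ) ^ 2 ∣ (u : ℤ) + cf (α x.2) (α i₁) W A x.1 with hT2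
  have hGsub : G ⊆ range (C + 1) ∪ (S.biUnion T1 ∪ (S ×ˢ univ).biUnion T2) := by
    intro u hu
    rw [hG, mem_filter] at hu
    obtain ⟨huM, hu⟩ := hu
    rw [mem_union, mem_range]
    by_cases huC : u < C + 1
    · exact Or.inl huC
    · right
      rcases hu with hu | ⟨hu1, hu2⟩
      · omega
      · rw [mem_union, mem_biUnion, mem_biUnion]
        rcases hexc u hu1 (by omega) hu2 with ⟨f, hf, h1⟩ | ⟨f, hf, i, h1⟩
        · left
          exact ⟨f, hf, mem_filter.2 ⟨huM, ⟨hu1, by omega⟩, h1⟩⟩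
        · right
          exact ⟨(f, i), mem_product.2 ⟨hf, mem_univ _⟩,
            mem_filter.2 ⟨huM, ⟨hu1, by omega⟩, h1⟩⟩
  have hGcard : G.card ≤ (C + 1) + (∑ f ∈ S, (T1 f).card + ∑ x ∈ S ×ˢ univ, (T2 x).card) := by
    refine (Finset.card_le_card hGsub).trans ((Finset.card_union_le _ _).trans ?_)
    rw [Finset.card_range]
    refine Nat.add_le_add_left ((Finset.card_union_le _ _).trans ?_) _
    exact Nat.add_le_add Finset.card_biUnion_le Finset.card_biUnion_le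
  have hc1 : ∀ f ∈ S, ((T1 f).card : ℝ) ≤ ((range n).filter fun m => m ∈ B).card + 1 := by
    intro f hf
    have h1 : (T1 f).card ≤ ((range M).filter fun m => m ∈ B).card := by
      refine Finset.card_le_card_of_injOn (fun u => (nf (α i₁) W A d f u).toNat) ?_ ?_
      · intro u hu
        rw [Finset.mem_coe, hT1, mem_filter, mem_range] at hu
        obtain ⟨huM, ⟨hu1, hu2⟩, hu3⟩ := hu
        rw [Finset.mem_coe, mem_filter, mem_range]
        exact ⟨(hlt f hf u hu1 hu2).trans huM, hu3⟩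
      · intro u hu v hv huv
        rw [Finset.mem_coe, hT1, mem_filter, mem_range] at hu hv
        exact hinj f hf u v hu.2.1.1 hv.2.1.1 hu.2.1.2 hv.2.1.2 huv
    have h2 : ((range M).filter fun m => m ∈ B).card ≤
        ((range n).filter fun m => m ∈ B).card + 1 := by
      have h3 : (range M).filter (fun m => m ∈ B) ⊆
          insert n ((range n).filter fun m => m ∈ B) := by
        intro m hm
        rw [mem_filter, mem_range] at hm
        rw [mem_insert, mem_filter, mem_range]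
        by_cases h : m = n
        · exact Or.inl h
        · exact Or.inr ⟨by omega, hm.2⟩
      exact (Finset.card_le_card h3).trans (Finset.card_insert_le _ _)
    exact_mod_cast h1.trans h2
  have hc2 : ∀ x ∈ S ×ˢ (univ : Finset (Fin r)), ((T2 x).card : ℝ) ≤
      ((n : ℝ) / P + 1) / Q * κ₀ + (Nat.sqrt (n + (C + 1)) : ℝ) := by
    intro x hx
    have hf := (mem_product.1 hx).1
    have hc := hC x.1 hf x.2
    have h1 := card_nonsq_le Q w hQ hw hsq (cf (α x.2) (α i₁) W A x.1) u₀ M C hc (T2 x) (by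
        intro u hu
        rw [hT2, mem_filter, mem_range] at hu
        obtain ⟨huM, ⟨hu1, hu2⟩, hu3⟩ := hu
        refine ⟨huM, hu1, ?_, hu3⟩
        have := (abs_le.1 hc).1
        omega)
    rw [← hκ₀] at h1
    refine h1.trans ?_
    have h2 : (M : ℝ) ≤ (n : ℝ) / P + 1 := by
      rw [hM]
      push_cast
      have : ((n / P : ℕ) : ℝ) ≤ (n : ℝ) / P := Nat.cast_div_le
      linarith
    have h3 : Nat.sqrt (M + C) ≤ Nat.sqrt (n + (C + 1)) := Nat.sqrt_le_sqrt (by omega)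
    have h4 : (Nat.sqrt (M + C) : ℝ) ≤ (Nat.sqrt (n + (C + 1)) : ℝ) := by exact_mod_cast h3
    exact add_le_add (mul_le_mul_of_nonneg_right
      (div_le_div_of_nonneg_right h2 hQR.le) hκ₀0) h4
  have e1 : (((range n).filter fun m => m ∈ E).card : ℝ) ≤
      (C + 1) + (∑ f ∈ S, ((T1 f).card : ℝ) + ∑ x ∈ S ×ˢ univ, ((T2 x).card : ℝ)) := by
    exact_mod_cast hEG.trans hGcard
  refine e1.trans ?_
  have e2 := Finset.sum_le_sum hc1
  have e3 := Finset.sum_le_sum hc2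
  rw [Finset.sum_const, nsmul_eq_mul] at e2 e3
  rw [Finset.card_product, Finset.card_univ, Fintype.card_fin] at e3
  push_cast at e3
  have e4 : (S.card : ℝ) * r * (((n : ℝ) / P + 1) / Q * κ₀ + (Nat.sqrt (n + (C + 1)) : ℝ)) =
      ((S.card : ℝ) * r * κ₀ / (P * Q)) * n + (S.card : ℝ) * r * κ₀ / Q +
        ((S.card : ℝ) * r) * (Nat.sqrt (n + (C + 1)) : ℝ) := by
    field_simp
  rw [e4] at e3
  linarith

/-- the final choice of parameters -/
lemma param (s r η w : ℝ) (hs : 0 ≤ s) (hr : 0 ≤ r) (hη : 0 < η) (hw : 0 < w)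
    (hwR : 2 * (s * r) / η ≤ w) (X : ℝ) (hX : X ≤ s * (η / (2 * (s * r * s + 1)))) :
    s * r * (1 / w + X) ≤ η := by
  have f1 : s * r * (1 / w) ≤ η / 2 := by
    rw [mul_one_div, div_le_iff₀ hw]
    rw [div_le_iff₀ hη] at hwR
    linarith
  have f2 : s * r * (s * (η / (2 * (s * r * s + 1)))) ≤ η / 2 := by
    have h1 : 0 < s * r * s + 1 := by positivity
    have h2 : s * r * (s * (η / (2 * (s * r * s + 1)))) =
        (s * r * s) / (s * r * s + 1) * (η / 2) := by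
      field_simp
    rw [h2]
    have h3 : (s * r * s) / (s * r * s + 1) ≤ 1 := by
      rw [div_le_one h1]
      linarith
    calc _ ≤ 1 * (η / 2) := by gcongr
      _ = _ := one_mul _
  have hsr : 0 ≤ s * r := mul_nonneg hs hr
  calc s * r * (1 / w + X) ≤ s * r * (1 / w + s * (η / (2 * (s * r * s + 1)))) := by
        gcongr
    _ = s * r * (1 / w) + s * r * (s * (η / (2 * (s * r * s + 1)))) := by ring
    _ ≤ η := by linarith

/-- Module RA. -/
theorem ra : StatementRA := by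
  intro r α ε q n₀ hα hε hex hq hF U N σ hN hσ hB η hη
  obtain ⟨i₁, hi₁⟩ := hex
  obtain ⟨K, S, hK, hSinj, hS0, hS1⟩ := xray α hα (univ.filter fun i => Odd (ε i)) i₁
  obtain ⟨w, A, Q, u₀, d, hwb, hqw, hw2, hQ, hQe, hWQ, hd, hsq, hsum, hcls⟩ :=
    exists_data α i₁ S hSinj q hq n₀ (η / (2 * ((S.card : ℝ) * r * (S.card : ℝ) + 1)))
      (by positivity) (⌈2 * ((S.card : ℝ) * r) / η⌉₊ + 1)
  have hWpos : 0 < WW q w := WW_pos hq w
  have hWsq : ∀ p : ℕ, p.Prime → p ≤ w → p ^ 2 ∣ WW q w := fun p hp hpw => sq_dvd_WW hp hpw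
  have hqW : q ∣ WW q w := Dvd.intro _ rfl
  generalize WW q w = W at *
  obtain ⟨t, ht⟩ : ∃ t : ℝ, t = sgn ((univ.filter (fun i => Odd (ε i))).card •
    (∑ f ∈ S, om (d f)) + S.card • (if σ = 1 then 0 else 1 : ZMod 2)) := ⟨_, rfl⟩
  refine ⟨Q, W * K, u₀, t, hQ, hQe, Nat.mul_pos hWpos hK, fun P hP hPQ => ?_⟩
  have hPpos : 0 < P := by
    rcases hP with rfl | hP
    · exact one_pos
    · exact hP.pos
  -- the constant
  obtain ⟨C, hC⟩ : ∃ C : ℕ, ∀ f ∈ S, ∀ i, |cf (α i) (α i₁) W A f| ≤ C ∧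
      |α i₁ * (1 + W * A) + W * f.2| ≤ C := by
    refine ⟨∑ f ∈ S, ∑ i, ((cf (α i) (α i₁) W A f).natAbs +
      (α i₁ * (1 + W * A) + W * f.2).natAbs), fun f hf i => ?_⟩
    have h1 : (cf (α i) (α i₁) W A f).natAbs + (α i₁ * (1 + W * A) + W * f.2).natAbs ≤
        ∑ f ∈ S, ∑ i, ((cf (α i) (α i₁) W A f).natAbs +
          (α i₁ * (1 + W * A) + W * f.2).natAbs) := by
      refine le_trans ?_ (Finset.single_le_sum (f := fun f => ∑ i, ((cf (α i) (α i₁) W A f).natAbs +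
          (α i₁ * (1 + W * A) + W * f.2).natAbs)) (fun _ _ => Nat.zero_le _) hf)
      exact Finset.single_le_sum (f := fun i => ((cf (α i) (α i₁) W A f).natAbs +
          (α i₁ * (1 + W * A) + W * f.2).natAbs)) (fun _ _ => Nat.zero_le _) (mem_univ i)
    constructor
    · rw [Int.abs_eq_natAbs]
      exact_mod_cast le_trans (Nat.le_add_right _ _) h1
    · rw [Int.abs_eq_natAbs]
      exact_mod_cast le_trans (Nat.le_add_left _ _) h1
  obtain ⟨B, hBdef⟩ : ∃ B : Set ℕ, B = {n | n ≡ n₀ [MOD q] ∧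
      ∏ i, ArithmeticFunction.moebius (((n : ℤ) + α i).toNat) ^ ε i = -σ} := ⟨_, rfl⟩
  rw [← hBdef] at hB
  obtain ⟨E, hEdef⟩ : ∃ E : Set ℕ, E = {y | y ≡ u₀ [MOD Q] ∧ P ∣ y ∧
    lam y * lam (y + P * (W * K)) ≠ t} := ⟨_, rfl⟩
  rw [← hEdef]
  -- facts at one point
  have hfact : ∀ y : ℕ, y ≡ u₀ [MOD Q] → C < y → ∀ f ∈ S,
      (d f : ℤ) * nf (α i₁) W A d f y = (y : ℤ) - α i₁ * (1 + W * A) - W * f.2 ∧
      (∀ i, (d f : ℤ) * (nf (α i₁) W A d f y + α i) = y + cf (α i) (α i₁) W A f) ∧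
      (∀ i, 0 < nf (α i₁) W A d f y + α i) ∧
      0 ≤ nf (α i₁) W A d f y ∧ nf (α i₁) W A d f y < y ∧
      (W : ℤ) ∣ nf (α i₁) W A d f y - n₀ := fun y hy hyC f hf =>
    fact α i₁ W A C n₀ d f (hd f hf).1 (hd f hf).2 y hyC (hcls y hy).1 ((hcls y hy).2 f hf)
      (fun i => (hC f hf i).1) (hC f hf i₁).2
  -- squarefreeness of the base point
  have hbase : ∀ i, 0 < (n₀ : ℤ) + α i ∧ Squarefree ((n₀ : ℤ) + α i).toNat := by
    intro i
    have h1 : ArithmeticFunction.moebius (((n₀ : ℤ) + α i).toNat) ≠ 0 := by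
      intro h0
      apply hF
      apply Finset.prod_eq_zero (mem_univ i)
      rw [h0]
      exact zero_pow (by have := hε i; omega)
    have h2 := ArithmeticFunction.moebius_ne_zero_iff_squarefree.1 h1
    refine ⟨?_, h2⟩
    by_contra hneg
    have : ((n₀ : ℤ) + α i).toNat = 0 := by omega
    rw [this] at h2
    exact not_squarefree_zero h2
  -- the exceptional points
  have hexc : ∀ y : ℕ, y ≡ u₀ [MOD Q] → C < y → lam y * lam (y + W * K) ≠ t →
      (∃ f ∈ S, (nf (α i₁) W A d f y).toNat ∈ B) ∨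
      (∃ f ∈ S, ∃ i, ∃ p : ℕ, p.Prime ∧ w < p ∧ (p : ℤ) ^ 2 ∣ (y : ℤ) + cf (α i) (α i₁) W A f) := by
    intro y hy hyC hne
    by_contra hcon
    push Not at hcon
    obtain ⟨hcon1, hcon2⟩ := hcon
    apply hne
    rw [ht]
    refine point α ε σ hσ i₁ hi₁ K S hS0 hS1 W A d (fun f => nf (α i₁) W A d f y) y
      (fun f hf => by have := (hd f hf).1; omega) ?_ ?_ ?_ ?_
    · intro f hf i
      rw [(hfact y hy hyC f hf).2.1 i, cf]
      ring
    · exact fun f hf i => (hfact y hy hyC f hf).2.2.1 i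
    · intro f hf i
      obtain ⟨h1, h2, h3, h4, h5, h6⟩ := hfact y hy hyC f hf
      refine squarefree_of hWsq h6 (h3 i) (hbase i).1 (hbase i).2 fun p hp hwp hdvd => ?_
      apply hcon2 f hf i p hp hwp
      rw [← h2 i]
      exact hdvd.mul_left _
    · intro f hf hprod
      apply hcon1 f hf
      obtain ⟨h1, h2, h3, h4, h5, h6⟩ := hfact y hy hyC f hf
      have h7 : (((nf (α i₁) W A d f y).toNat : ℕ) : ℤ) = nf (α i₁) W A d f y :=
        Int.toNat_of_nonneg h4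
      rw [hBdef]
      refine ⟨?_, ?_⟩
      · have h8 : ((q : ℕ) : ℤ) ∣ (W : ℤ) := Int.natCast_dvd_natCast.2 hqW
        have h9 := h8.trans h6
        rw [← Int.natCast_modEq_iff, Int.modEq_iff_dvd, h7]
        have h10 := (dvd_neg.2 h9)
        rwa [neg_sub] at h10
      · rw [h7]
        exact hprod
  obtain ⟨κ₀, hκ₀⟩ : ∃ κ₀ : ℝ, κ₀ = 1 / w +
    ∑ p ∈ Q.primeFactors.filter (fun p => w < p), (1 : ℝ) / p := ⟨_, rfl⟩
  have hcount := count_step α i₁ S w W A Q u₀ (W * K) C P d t B E (by omega) hQ hPpos hPQ hsq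
    (fun f hf i => (hC f hf i).1) hEdef (by
      intro f hf u v hu hv huC hvC huv
      obtain ⟨h1, -, -, h4, -, -⟩ := hfact u hu huC f hf
      obtain ⟨k1, -, -, k4, -, -⟩ := hfact v hv hvC f hf
      have h7 : nf (α i₁) W A d f u = nf (α i₁) W A d f v := by omega
      rw [h7, k1] at h1
      omega) (by
      intro f hf u hu huC
      obtain ⟨-, -, -, h4, h5, -⟩ := hfact u hu huC f hf
      omega) hexc κ₀ hκ₀
  have hsr : 0 ≤ (S.card : ℝ) * r := by positivity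
  have hfin := dens_le_of_bound hN E B hB _ _ _ _ (C + 1) hsr hcount
  refine hfin.trans ?_
  apply div_le_div_of_nonneg_right _ (by positivity)
  have hw0 : (0 : ℝ) < w := by
    have : 0 < w := by omega
    exact_mod_cast this
  have hwR : 2 * ((S.card : ℝ) * r) / η ≤ w := by
    have h1 : 2 * ((S.card : ℝ) * r) / η ≤ ⌈2 * ((S.card : ℝ) * r) / η⌉₊ := Nat.le_ceil _
    have h2 : ((⌈2 * ((S.card : ℝ) * r) / η⌉₊ : ℕ) : ℝ) ≤ w := by
      exact_mod_cast (Nat.le_succ _).trans hwb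
    linarith
  rw [hκ₀]
  exact param _ _ η w (Nat.cast_nonneg _) (Nat.cast_nonneg _) hη hw0 hwR _ hsum

end Pool.Agent.H27.MR
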