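import Mathlib

/-!
# Choosing the shift: squarefree values of linear polynomials
-/

set_option autoImplicit false

namespace Pool.Agent.H27.MR

open Finset

lemma card_class_le (M L : ℕ) (hL : 0 < L) (T : Finset ℕ) (hT : ∀ y ∈ T, y < M)
    (hc : ∀ y ∈ T, ∀ z ∈ T, y ≡ z [MOD L]) : (T.card : ℝ) ≤ M / L + 1 := by
  rcases T.eq_empty_or_nonempty with rfl | ⟨v, hv⟩
  · simp only [Finset.card_empty, Nat.cast_zero]
    positivity
  · have h1 : T ⊆ (range M).filter fun y => y ≡ v [MOD L] := fun y hy =>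
      mem_filter.2 ⟨mem_range.2 (hT y hy), hc y hy v hv⟩
    have h2 := Finset.card_le_card h1
    rw [← Nat.count_eq_card_filter_range, Nat.count_modEq_card M hL v] at h2
    have h3 : T.card ≤ M / L + 1 := by
      refine h2.trans ?_
      split_ifs <;> omega
    have h4 : ((M / L : ℕ) : ℝ) ≤ (M : ℝ) / L := Nat.cast_div_le
    calc (T.card : ℝ) ≤ ((M / L + 1 : ℕ) : ℝ) := by exact_mod_cast h3
      _ = ((M / L : ℕ) : ℝ) + 1 := by push_cast; ring
      _ ≤ _ := by linarith

lemma sum_inv_sq_le {w R : ℕ} (hw : 0 < w) :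
    ∑ n ∈ Ioc w R, (1 : ℝ) / (n : ℝ) ^ 2 ≤ 1 / w := by
  rcases le_total w R with h | h
  · have h1 := sum_Ioc_inv_sq_le_sub (α := ℝ) hw.ne' h
    have h2 : (0 : ℝ) ≤ (R : ℝ)⁻¹ := by positivity
    calc ∑ n ∈ Ioc w R, (1 : ℝ) / (n : ℝ) ^ 2 = ∑ n ∈ Ioc w R, ((n : ℝ) ^ 2)⁻¹ :=
          Finset.sum_congr rfl fun n _ => one_div _
      _ ≤ (w : ℝ)⁻¹ - (R : ℝ)⁻¹ := h1
      _ ≤ 1 / w := by rw [one_div]; linarith
  · rw [Finset.Ioc_eq_empty (by omega), Finset.sum_empty]
    positivity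

/-- the modulus -/
def WW (q w : ℕ) : ℕ := q * primorial w ^ 2

lemma WW_pos {q : ℕ} (hq : 0 < q) (w : ℕ) : 0 < WW q w := by
  have := primorial_pos w
  unfold WW
  positivity

lemma le_WW {q : ℕ} (hq : 0 < q) (w : ℕ) : w ≤ WW q w := by
  have h1 : w ≤ primorial w := le_primorial_self
  have h2 := primorial_pos w
  unfold WW
  calc w ≤ primorial w := h1
    _ ≤ primorial w ^ 2 := Nat.le_self_pow (by norm_num) _
    _ ≤ q * primorial w ^ 2 := Nat.le_mul_of_pos_left _ hq

lemma sq_dvd_WW {q w p : ℕ} (hp : p.Prime) (hpw : p ≤ w) : p ^ 2 ∣ WW q w := by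
  have h1 : p ∣ primorial w := hp.dvd_primorial_iff.2 hpw
  exact (pow_dvd_pow_of_dvd h1 2).trans (Dvd.intro_left _ rfl)

lemma dvd_WW_iff {q w p : ℕ} (hq : 0 < q) (hqw : q ≤ w) (hp : p.Prime) :
    p ∣ WW q w ↔ p ≤ w := by
  constructor
  · intro h
    rcases (hp.dvd_mul).1 h with h1 | h1
    · exact (Nat.le_of_dvd hq h1).trans hqw
    · exact hp.dvd_primorial_iff.1 (hp.dvd_of_dvd_pow h1)
  · intro h
    exact (dvd_pow_self p two_ne_zero).trans (sq_dvd_WW hp h)

lemma lt_of_dvd {q w p n : ℕ} (hp : p.Prime) (h : p ∣ 1 + WW q w * n) : w < p := by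
  by_contra hc
  have h1 : p ∣ WW q w := (dvd_pow_self p two_ne_zero).trans (sq_dvd_WW hp (by omega))
  have h2 : p ∣ 1 := (Nat.dvd_add_left (h1.mul_right n)).1 h
  exact hp.one_lt.ne' (Nat.dvd_one.1 h2)

/-- Few reciprocals: if all prime factors of `d` exceed `w` then the sum of their reciprocals is
at most `log d / (w log w)`. -/
lemma sum_inv_primeFactors {d w : ℕ} (hw : 2 ≤ w) (hd : 0 < d)
    (h : ∀ p ∈ d.primeFactors, w < p) :
    ∑ p ∈ d.primeFactors, (1 : ℝ) / p ≤ Real.log d / (w * Real.log w) := by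
  have hwR : (2 : ℝ) ≤ w := by exact_mod_cast hw
  have hlw : 0 < Real.log w := Real.log_pos (by linarith)
  have h1 : ∑ p ∈ d.primeFactors, (1 : ℝ) / p ≤ d.primeFactors.card • (1 / (w : ℝ)) := by
    refine Finset.sum_le_card_nsmul _ _ _ fun p hp => ?_
    have : (w : ℝ) ≤ p := by exact_mod_cast (h p hp).le
    apply one_div_le_one_div_of_le (by linarith) this
  have h2 : w ^ d.primeFactors.card ≤ d := by
    refine le_trans ?_ (Nat.le_of_dvd hd (Nat.prod_primeFactors_dvd d))
    rw [← Finset.prod_const]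
    exact Finset.prod_le_prod' fun p hp => (h p hp).le
  have h3 : (d.primeFactors.card : ℝ) * Real.log w ≤ Real.log d := by
    rw [← Real.log_pow]
    apply Real.log_le_log (by positivity)
    exact_mod_cast h2
  refine h1.trans ?_
  rw [nsmul_eq_mul, mul_one_div, div_le_div_iff₀ (by linarith) (by positivity)]
  nlinarith

/-- the shift -/
theorem exists_shift (S : Finset ℕ) (q : ℕ) (hq : 0 < q) (δ : ℝ) (hδ : 0 < δ) :
    ∃ w₀ : ℕ, ∀ w : ℕ, w₀ ≤ w → ∃ A : ℕ, ∀ a ∈ S,
      Squarefree (1 + WW q w * (a + A)) ∧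
        ∑ p ∈ (1 + WW q w * (a + A)).primeFactors, (1 : ℝ) / p ≤ δ := by
  classical
  obtain ⟨w₁, hw₁⟩ : ∃ w₁ : ℕ, ∀ w : ℕ, w₁ ≤ w → 24 / δ ≤ Real.log w := by
    have h1 : Filter.Tendsto (fun n : ℕ => Real.log (n : ℝ)) Filter.atTop Filter.atTop :=
      Real.tendsto_log_atTop.comp tendsto_natCast_atTop_atTop
    exact Filter.eventually_atTop.1 (h1.eventually_ge_atTop _)
  refine ⟨w₁ + q + 4 * S.card + S.sup id + 4, fun w hw => ?_⟩
  have hwq : q ≤ w := by omega
  have hw4 : 4 ≤ w := by omega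
  have hwS : 4 * S.card < w := by omega
  have hwa : ∀ a ∈ S, a ≤ w := fun a ha => by
    have : a ≤ S.sup id := Finset.le_sup (f := id) ha
    omega
  set W := WW q w with hW
  have hWw : w ≤ W := le_WW hq w
  -- size of the numbers
  have hsize : ∀ a ∈ S, ∀ A < W ^ 4, 1 + W * (a + A) ≤ W ^ 6 := by
    intro a ha A hA
    have h1 : a + A ≤ W + W ^ 4 := by
      have := hwa a ha
      omega
    have h2 : 4 ≤ W := by omega
    calc 1 + W * (a + A) ≤ 1 + W * (W + W ^ 4) := by gcongr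
      _ ≤ W ^ 6 := by
        have h3 : W ^ 2 ≤ W ^ 5 := Nat.pow_le_pow_right (by omega) (by norm_num)
        have h4 : 1 ≤ W ^ 5 := Nat.one_le_pow _ _ (by omega)
        calc 1 + W * (W + W ^ 4) = 1 + W ^ 2 + W ^ 5 := by ring
          _ ≤ W ^ 5 + W ^ 5 + W ^ 5 := by omega
          _ = 3 * W ^ 5 := by ring
          _ ≤ W * W ^ 5 := by gcongr; omega
          _ = W ^ 6 := by ring
  -- the bad shifts
  set bad : Finset ℕ := (S ×ˢ (Ioc w (W ^ 3)).filter Nat.Prime).biUnion fun x =>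
    (range (W ^ 4)).filter fun A => x.2 ^ 2 ∣ 1 + W * (x.1 + A) with hbad
  have hcount : (bad.card : ℝ) < (W : ℝ) ^ 4 := by
    have h1 : (bad.card : ℝ) ≤ ∑ x ∈ S ×ˢ (Ioc w (W ^ 3)).filter Nat.Prime,
        (((range (W ^ 4)).filter fun A => x.2 ^ 2 ∣ 1 + W * (x.1 + A)).card : ℝ) := by
      exact_mod_cast Finset.card_biUnion_le
    have h2 : ∀ x ∈ S ×ˢ (Ioc w (W ^ 3)).filter Nat.Prime,
        (((range (W ^ 4)).filter fun A => x.2 ^ 2 ∣ 1 + W * (x.1 + A)).card : ℝ) ≤
          (W : ℝ) ^ 4 * (1 / (x.2 : ℝ) ^ 2) + 1 := by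
      intro x hx
      rw [mem_product, mem_filter, mem_Ioc] at hx
      have hp := hx.2.2
      have hcop : Nat.Coprime (x.2 ^ 2) W := by
        apply Nat.Coprime.pow_left
        rw [hp.coprime_iff_not_dvd]
        intro h
        have := (dvd_WW_iff hq hwq hp).1 h
        omega
      have h3 := card_class_le (W ^ 4) (x.2 ^ 2) (pow_pos hp.pos 2)
        ((range (W ^ 4)).filter fun A => x.2 ^ 2 ∣ 1 + W * (x.1 + A))
        (fun y hy => mem_range.1 (mem_filter.1 hy).1) (by
          intro y hy z hz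
          have hy2 := (mem_filter.1 hy).2
          have hz2 := (mem_filter.1 hz).2
          have h4 : 1 + W * (x.1 + y) ≡ 1 + W * (x.1 + z) [MOD x.2 ^ 2] :=
            ((Nat.modEq_zero_iff_dvd).2 hy2).trans ((Nat.modEq_zero_iff_dvd).2 hz2).symm
          have h5 := Nat.ModEq.add_left_cancel' 1 h4
          have h6 := Nat.ModEq.cancel_left_of_coprime (c := W) (by rwa [Nat.coprime_iff_gcd_eq_one] at hcop) h5
          exact Nat.ModEq.add_left_cancel' _ h6)
      push_cast at h3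
      calc _ ≤ _ := h3
        _ = _ := by ring
    have h3 := Finset.sum_le_sum h2
    have h4 : ∑ x ∈ S ×ˢ (Ioc w (W ^ 3)).filter Nat.Prime,
        ((W : ℝ) ^ 4 * (1 / (x.2 : ℝ) ^ 2) + 1) ≤ S.card * ((W : ℝ) ^ 4 * (1 / w) + (W : ℝ) ^ 3) := by
      rw [Finset.sum_product]
      dsimp only
      rw [Finset.sum_const, nsmul_eq_mul]
      gcongr
      rw [Finset.sum_add_distrib, ← Finset.mul_sum]
      apply add_le_add
      · gcongr
        refine le_trans ?_ (sum_inv_sq_le (w := w) (R := W ^ 3) (by omega))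
        exact Finset.sum_le_sum_of_subset_of_nonneg (Finset.filter_subset _ _)
          fun _ _ _ => by positivity
      · rw [Finset.sum_const, nsmul_eq_mul, mul_one]
        have h5 : ((Ioc w (W ^ 3)).filter Nat.Prime).card ≤ W ^ 3 := by
          refine (Finset.card_filter_le _ _).trans ?_
          rw [Nat.card_Ioc]
          omega
        exact_mod_cast h5
    refine (h1.trans (h3.trans h4)).trans_lt ?_
    have hSR : 4 * (S.card : ℝ) < w := by exact_mod_cast hwS
    have hwR : (4 : ℝ) ≤ w := by exact_mod_cast hw4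
    have hWR : (w : ℝ) ≤ W := by exact_mod_cast hWw
    have hW0 : (0 : ℝ) < W := by linarith
    have h5 : (S.card : ℝ) * (1 / w) < 1 / 4 := by
      rw [mul_one_div, div_lt_iff₀ (by linarith)]
      linarith
    have h6 : (S.card : ℝ) * (W : ℝ) ^ 3 ≤ 1 / 4 * (W : ℝ) ^ 4 := by
      have : (S.card : ℝ) ≤ 1 / 4 * W := by linarith
      calc (S.card : ℝ) * (W : ℝ) ^ 3 ≤ (1 / 4 * W) * (W : ℝ) ^ 3 := by gcongr
        _ = _ := by ring
    have hW4 : 0 < (W : ℝ) ^ 4 := by positivity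
    calc (S.card : ℝ) * ((W : ℝ) ^ 4 * (1 / w) + (W : ℝ) ^ 3) =
        (S.card : ℝ) * (1 / w) * (W : ℝ) ^ 4 + (S.card : ℝ) * (W : ℝ) ^ 3 := by ring
      _ < (W : ℝ) ^ 4 := by nlinarith
  obtain ⟨A, hA, hAb⟩ : ∃ A ∈ range (W ^ 4), A ∉ bad := by
    by_contra hc
    push Not at hc
    have h1 : range (W ^ 4) ⊆ bad := fun A hA => hc A hA
    have h2 := Finset.card_le_card h1
    rw [Finset.card_range] at h2
    have h3 : ((W ^ 4 : ℕ) : ℝ) ≤ bad.card := by exact_mod_cast h2
    push_cast at h3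
    linarith
  refine ⟨A, fun a ha => ⟨?_, ?_⟩⟩
  · rw [Nat.squarefree_iff_prime_squarefree]
    intro p hp hpd
    apply hAb
    rw [hbad, mem_biUnion]
    have hwp : w < p := lt_of_dvd hp ((Dvd.intro _ rfl).trans hpd)
    refine ⟨(a, p), ?_, ?_⟩
    · rw [mem_product, mem_filter, mem_Ioc]
      refine ⟨ha, ⟨hwp, ?_⟩, hp⟩
      have h1 : p * p ≤ W ^ 6 := (Nat.le_of_dvd (by omega) hpd).trans
        (hsize a ha A (mem_range.1 hA))
      have h2 : p ^ 2 ≤ (W ^ 3) ^ 2 := by
        calc p ^ 2 = p * p := by ring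
          _ ≤ W ^ 6 := h1
          _ = _ := by ring
      exact (Nat.pow_le_pow_iff_left two_ne_zero).1 h2
    · rw [mem_filter]
      refine ⟨hA, ?_⟩
      rw [pow_two]
      exact hpd
  · have h1 := sum_inv_primeFactors (d := 1 + W * (a + A)) (w := w) (by omega) (by omega)
      (fun p hp => lt_of_dvd (Nat.prime_of_mem_primeFactors hp) (Nat.dvd_of_mem_primeFactors hp))
    refine h1.trans ?_
    have hwR : (4 : ℝ) ≤ w := by exact_mod_cast hw4
    have hlw : 24 / δ ≤ Real.log w := hw₁ w (by omega)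
    have hlw0 : 0 < Real.log w := Real.log_pos (by linarith)
    rw [div_le_iff₀ (by positivity)]
    have h2 : Real.log ((1 + W * (a + A) : ℕ) : ℝ) ≤ 6 * Real.log W := by
      have h3 : ((1 + W * (a + A) : ℕ) : ℝ) ≤ (W : ℝ) ^ 6 := by
        exact_mod_cast hsize a ha A (mem_range.1 hA)
      have h4 := Real.log_le_log (by
        have : 0 < 1 + W * (a + A) := by omega
        exact_mod_cast this) h3
      rwa [Real.log_pow] at h4
    have h3 : Real.log W ≤ 4 * w := by
      have h4 : Real.log q ≤ w := by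
        have h5 : Real.log q ≤ q := by
          have := Real.log_le_sub_one_of_pos (show (0 : ℝ) < q by exact_mod_cast hq)
          linarith
        have h6 : (q : ℝ) ≤ w := by exact_mod_cast hwq
        linarith
      have h7 : Real.log (primorial w) ≤ w * Real.log 4 := by
        rw [← Real.log_pow]
        apply Real.log_le_log (by exact_mod_cast primorial_pos w)
        exact_mod_cast primorial_le_four_pow w
      have h8 : Real.log 4 ≤ 1.4 := by
        have hl3 : Real.log 2 < 0.6931471808 := Real.log_two_lt_d9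
        rw [show (4 : ℝ) = 2 ^ 2 by norm_num, Real.log_pow]
        norm_num at hl3 ⊢
        linarith
      rw [hW, WW]
      push_cast
      rw [Real.log_mul (by exact_mod_cast hq.ne')
        (pow_ne_zero 2 (by exact_mod_cast (primorial_pos w).ne')), Real.log_pow]
      push_cast
      nlinarith
    have h4 : 24 ≤ δ * Real.log w := by
      rw [div_le_iff₀ hδ] at hlw
      linarith
    have hw0 : (0 : ℝ) < w := by linarith
    calc Real.log ((1 + W * (a + A) : ℕ) : ℝ) ≤ 24 * w := by linarith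
      _ ≤ (δ * Real.log w) * w := by gcongr
      _ = δ * (w * Real.log w) := by ring

end Pool.Agent.H27.MR
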