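import Mathlib

/-!
# The X-ray identity behind module RA
-/

set_option autoImplicit false

namespace Pool.Agent.H27.MR

open Finset LaurentPolynomial

/-- Laurent polynomials over the field with two elements -/
abbrev LP := LaurentPolynomial (ZMod 2)

lemma lp_add_self (x : LP) : x + x = 0 := by
  have h : (2 : LP) = 0 := by
    have : (2 : LP) = C (2 : ZMod 2) := (map_ofNat C 2).symm
    rw [this, show (2 : ZMod 2) = 0 from rfl, map_zero]
  calc x + x = 2 * x := by ring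
    _ = 0 := by rw [h, zero_mul]

lemma lp_neg (x : LP) : -x = x := by
  rw [neg_eq_iff_add_eq_zero]
  exact lp_add_self x

lemma one_add_dvd (c : ℤ) (k : ℕ) : (1 + T c : LP) ∣ 1 + T (k * c) := by
  rw [← T_pow]
  have h1 := sub_dvd_pow_sub_pow (T c : LP) 1 k
  rw [one_pow, sub_eq_add_neg, lp_neg, sub_eq_add_neg, lp_neg] at h1
  rwa [add_comm (1 : LP), add_comm (1 : LP)]

lemma one_add_dvd_neg (c : ℤ) : (1 + T c : LP) ∣ 1 + T (-c) := by
  refine ⟨T (-c), ?_⟩
  rw [add_mul, one_mul, ← T_add, add_neg_cancel, T_zero, add_comm]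

lemma one_add_dvd_natAbs (c : ℤ) (k : ℕ) : (1 + T c : LP) ∣ 1 + T ((k * c.natAbs : ℕ) : ℤ) := by
  rcases Int.natAbs_eq c with h | h
  · conv_lhs => rw [h]
    rw [Nat.cast_mul]
    exact one_add_dvd _ k
  · have h1 := one_add_dvd_neg c
    have h2 : -c = (c.natAbs : ℤ) := by omega
    rw [h2] at h1
    rw [Nat.cast_mul]
    exact h1.trans (one_add_dvd _ k)

lemma exists_prod_dvd {ι : Type*} [DecidableEq ι] (J : Finset ι) (c : ι → ℤ)
    (hc : ∀ j ∈ J, c j ≠ 0) :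
    ∃ K : ℕ, 0 < K ∧ (∏ j ∈ J, (1 + T (c j)) : LP) ∣ 1 + T (K : ℤ) := by
  induction J using Finset.induction_on with
  | empty => exact ⟨1, one_pos, by simp⟩
  | insert j J hj ih =>
    obtain ⟨K, hK, hd⟩ := ih fun i hi => hc i (Finset.mem_insert_of_mem hi)
    have hc0 := hc j (Finset.mem_insert_self _ _)
    set L := K * (c j).natAbs with hL
    have hL0 : 0 < L := Nat.mul_pos hK (Int.natAbs_pos.2 hc0)
    refine ⟨2 * L, by omega, ?_⟩
    rw [Finset.prod_insert hj]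
    have h1 : (1 + T (c j) : LP) ∣ 1 + T (L : ℤ) := one_add_dvd_natAbs _ _
    have h2 : (1 + T (K : ℤ) : LP) ∣ 1 + T (L : ℤ) := by
      have := one_add_dvd (K : ℤ) (c j).natAbs
      rwa [← Nat.cast_mul, mul_comm] at this
    have h3 := mul_dvd_mul h1 (hd.trans h2)
    have h4 : (1 + T (L : ℤ) : LP) * (1 + T (L : ℤ)) = 1 + T ((2 * L : ℕ) : ℤ) := by
      have h5 : (1 + T (L : ℤ) : LP) * (1 + T (L : ℤ)) =
          1 + (T (L : ℤ) + T (L : ℤ)) + T (L : ℤ) * T (L : ℤ) := by ring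
      rw [h5, lp_add_self, add_zero, ← T_add]
      congr 2
      push_cast
      ring
    rwa [h4] at h3

/-- pairing of a Laurent polynomial with a function -/
noncomputable def chi (H : ℤ → ZMod 2) : LP →+ ZMod 2 :=
  (Finsupp.liftAddHom fun n => AddMonoidHom.mulRight (H n)).comp
    AddMonoidAlgebra.coeffAddEquiv.toAddMonoidHom

lemma chi_T (H : ℤ → ZMod 2) (n : ℤ) : chi H (T n) = H n := by
  have h1 : (T n : LP).coeff = Finsupp.single n 1 := rfl
  have h2 : chi H (T n) = (Finsupp.liftAddHom fun n => AddMonoidHom.mulRight (H n))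
      (Finsupp.single n (1 : ZMod 2)) := rfl
  rw [h2, Finsupp.liftAddHom_apply_single]
  simp

lemma sum_T_support (G : LP) : ∑ e ∈ G.coeff.support, (T e : LP) = G := by
  have h1 := AddMonoidAlgebra.sum_coeff_single G
  conv_rhs => rw [← h1]
  rw [Finsupp.sum]
  refine Finset.sum_congr rfl fun e he => ?_
  have h2 : G.coeff e = 1 := by
    have h3 := Finsupp.mem_support_iff.1 he
    revert h3
    generalize G.coeff e = z
    revert z
    decide
  rw [h2]
  rfl

lemma sum_pow_lt {r : ℕ} (f : Finset (Fin r)) : ∑ j ∈ f, (2 : ℤ) ^ (j : ℕ) < 2 ^ r := by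
  have h1 : ∑ j ∈ f, (2 : ℤ) ^ (j : ℕ) ≤ ∑ j : Fin r, (2 : ℤ) ^ (j : ℕ) :=
    Finset.sum_le_sum_of_subset_of_nonneg (Finset.subset_univ _) fun _ _ _ => by positivity
  have h2 : ∑ j : Fin r, (2 : ℤ) ^ (j : ℕ) = 2 ^ r - 1 := by
    rw [Fin.sum_univ_eq_sum_range (fun j => (2 : ℤ) ^ j)]
    have h3 := mul_geom_sum (2 : ℤ) r
    linarith
  linarith

lemma sum_pow_inj {r : ℕ} {f g : Finset (Fin r)}
    (h : ∑ j ∈ f, (2 : ℤ) ^ (j : ℕ) = ∑ j ∈ g, (2 : ℤ) ^ (j : ℕ)) : f = g := by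
  have h1 := Finset.geomSum_injective (n := 2) le_rfl
  have h2 : f.map Fin.valEmbedding = g.map Fin.valEmbedding := by
    apply h1
    simp only [Finset.sum_map, Fin.valEmbedding_apply]
    exact_mod_cast h
  exact Finset.map_injective _ h2

lemma prod_T {ι : Type*} [DecidableEq ι] (f : Finset ι) (c : ι → ℤ) :
    ∏ j ∈ f, (T (c j) : LP) = T (∑ j ∈ f, c j) := by
  induction f using Finset.induction_on with
  | empty => simp
  | insert j f hj ih => rw [Finset.prod_insert hj, Finset.sum_insert hj, T_add, ih]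

/-- The X-ray identity. -/
theorem xray {r : ℕ} (α : Fin r → ℤ) (hα : Function.Injective α) (I : Finset (Fin r))
    (i₁ : Fin r) :
    ∃ (K : ℕ) (S : Finset (ℤ × ℤ)), 0 < K ∧ Set.InjOn Prod.fst (S : Set (ℤ × ℤ)) ∧
      (∀ i ∈ I, i ≠ i₁ → ∀ H : ℤ → ZMod 2, ∑ f ∈ S, H (f.1 * α i - f.2) = 0) ∧
      (∀ H : ℤ → ZMod 2, ∑ f ∈ S, H (f.1 * α i₁ - f.2) = H 0 + H K) := by
  classical
  set J := I.erase i₁ with hJ
  obtain ⟨K, hK, G, hG⟩ := exists_prod_dvd J (fun j => 2 ^ (j : ℕ) * (α i₁ - α j)) (by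
    intro j hj
    have h1 : α i₁ - α j ≠ 0 := by
      intro h0
      have : i₁ = j := hα (by omega)
      exact (Finset.mem_erase.1 hj).1 this.symm
    positivity)
  set φ : Finset (Fin r) × ℤ → ℤ × ℤ := fun x =>
    (∑ j ∈ x.1, 2 ^ (j : ℕ) + 2 ^ r * x.2,
      ∑ j ∈ x.1, 2 ^ (j : ℕ) * α j + 2 ^ r * x.2 * α i₁ - x.2) with hφ
  have hinj : Function.Injective fun x : Finset (Fin r) × ℤ => (φ x).1 := by
    rintro ⟨f, e⟩ ⟨g, e'⟩ h
    simp only [hφ] at h
    have h1 := sum_pow_lt f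
    have h2 := sum_pow_lt g
    have h3 : 0 ≤ ∑ j ∈ f, (2 : ℤ) ^ (j : ℕ) := Finset.sum_nonneg fun _ _ => by positivity
    have h4 : 0 ≤ ∑ j ∈ g, (2 : ℤ) ^ (j : ℕ) := Finset.sum_nonneg fun _ _ => by positivity
    have h5 : (2 : ℤ) ^ r > 0 := by positivity
    have he : e = e' := by
      rcases lt_trichotomy e e' with h6 | h6 | h6
      · nlinarith
      · exact h6
      · nlinarith
    subst he
    have h7 : ∑ j ∈ f, (2 : ℤ) ^ (j : ℕ) = ∑ j ∈ g, (2 : ℤ) ^ (j : ℕ) := by linarith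
    rw [sum_pow_inj h7]
  have key : ∀ (x : ℤ), ∑ f ∈ (J.powerset ×ˢ G.coeff.support).image φ, (T (f.1 * x - f.2) : LP) =
      (∏ j ∈ J, (1 + T (2 ^ (j : ℕ) * (x - α j)))) *
        ∑ e ∈ G.coeff.support, T (2 ^ r * e * (x - α i₁) + e) := by
    intro x
    rw [Finset.sum_image fun a _ b _ hab => hinj (by simp only [hab]), Finset.sum_product,
      Finset.prod_one_add, Finset.sum_mul]
    refine Finset.sum_congr rfl fun f _ => ?_
    rw [Finset.mul_sum]
    refine Finset.sum_congr rfl fun e _ => ?_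
    rw [prod_T f fun j => 2 ^ (j : ℕ) * (x - α j), ← T_add]
    congr 1
    simp only [hφ]
    have h2 : ∑ j ∈ f, (2 : ℤ) ^ (j : ℕ) * (x - α j) =
        (∑ j ∈ f, (2 : ℤ) ^ (j : ℕ)) * x - ∑ j ∈ f, (2 : ℤ) ^ (j : ℕ) * α j := by
      rw [Finset.sum_mul, ← Finset.sum_sub_distrib]
      refine Finset.sum_congr rfl fun j _ => ?_
      ring
    rw [h2]
    ring
  refine ⟨K, (J.powerset ×ˢ G.coeff.support).image φ, hK, ?_, ?_, ?_⟩
  · intro a ha b hb hab
    rw [Finset.coe_image] at ha hb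
    obtain ⟨x, -, rfl⟩ := ha
    obtain ⟨y, -, rfl⟩ := hb
    rw [hinj hab]
  · intro i hi hne H
    have h1 : ∑ f ∈ (J.powerset ×ˢ G.coeff.support).image φ, H (f.1 * α i - f.2) =
        chi H (∑ f ∈ (J.powerset ×ˢ G.coeff.support).image φ, T (f.1 * α i - f.2)) := by
      rw [map_sum]
      exact Finset.sum_congr rfl fun f _ => (chi_T H _).symm
    rw [h1, key (α i)]
    have h2 : ∏ j ∈ J, (1 + T (2 ^ (j : ℕ) * (α i - α j)) : LP) = 0 := by
      apply Finset.prod_eq_zero (Finset.mem_erase.2 ⟨hne, hi⟩)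
      rw [sub_self, mul_zero, T_zero]
      exact lp_add_self 1
    rw [h2, zero_mul, map_zero]
  · intro H
    have h1 : ∑ f ∈ (J.powerset ×ˢ G.coeff.support).image φ, H (f.1 * α i₁ - f.2) =
        chi H (∑ f ∈ (J.powerset ×ˢ G.coeff.support).image φ, T (f.1 * α i₁ - f.2)) := by
      rw [map_sum]
      exact Finset.sum_congr rfl fun f _ => (chi_T H _).symm
    rw [h1, key (α i₁)]
    have h2 : ∑ e ∈ G.coeff.support, (T (2 ^ r * e * (α i₁ - α i₁) + e) : LP) = G :=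
      (Finset.sum_congr rfl fun e _ => by rw [sub_self, mul_zero, zero_add]).trans
        (sum_T_support G)
    rw [h2, ← hG, map_add, chi_T, ← T_zero, chi_T]

end Pool.Agent.H27.MR
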