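import Pool.Agent.H24.MR.Interface
import Pool.Agent.H27.MR.Xray
import Pool.Agent.H27.MR.Shift

/-!
# The sign identity and the counting lemmas for module RA
-/

set_option autoImplicit false

namespace Pool.Agent.H27.MR

open Finset
open Pool.Agent.H24.MR (lam)

/-- parity of the number of prime factors -/
noncomputable def om (n : ℕ) : ZMod 2 := (ArithmeticFunction.cardFactors n : ZMod 2)

/-- sign of a parity -/
noncomputable def sgn (z : ZMod 2) : ℝ := if z = 0 then 1 else -1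

lemma neg_one_pow_eq_sgn (n : ℕ) : (-1 : ℝ) ^ n = sgn (n : ZMod 2) := by
  unfold sgn
  by_cases h : Even n
  · rw [h.neg_one_pow, if_pos ((ZMod.natCast_eq_zero_iff_even).2 h)]
  · rw [(Nat.not_even_iff_odd.1 h).neg_one_pow,
      if_neg fun h' => h ((ZMod.natCast_eq_zero_iff_even).1 h')]

lemma lam_eq_sgn (n : ℕ) : lam n = sgn (om n) := neg_one_pow_eq_sgn _

lemma sgn_add (x y : ZMod 2) : sgn (x + y) = sgn x * sgn y := by
  unfold sgn
  revert x y
  have : ∀ x y : ZMod 2, (if x + y = 0 then (1 : ℤ) else -1) =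
      (if x = 0 then 1 else -1) * (if y = 0 then 1 else -1) := by decide
  intro x y
  have h := this x y
  have h2 := congrArg (Int.cast : ℤ → ℝ) h
  push_cast at h2
  exact h2

lemma om_mul {m n : ℕ} (hm : m ≠ 0) (hn : n ≠ 0) : om (m * n) = om m + om n := by
  unfold om
  rw [ArithmeticFunction.cardFactors_mul hm hn]
  push_cast
  rfl

/-- value of the product at a point where all arguments are squarefree -/
lemma sum_om_of_ne {r : ℕ} (x : Fin r → ℕ) (hx : ∀ i, Squarefree (x i)) (ε : Fin r → ℕ) (σ : ℤ)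
    (hσ : σ = 1 ∨ σ = -1) (h : ∏ i, ArithmeticFunction.moebius (x i) ^ ε i ≠ -σ) :
    ∑ i ∈ univ.filter (fun i => Odd (ε i)), om (x i) = if σ = 1 then 0 else 1 := by
  have h1 : ∏ i, ArithmeticFunction.moebius (x i) ^ ε i =
      (-1 : ℤ) ^ (∑ i, ArithmeticFunction.cardFactors (x i) * ε i) := by
    rw [← Finset.prod_pow_eq_pow_sum]
    refine Finset.prod_congr rfl fun i _ => ?_
    rw [ArithmeticFunction.moebius_apply_of_squarefree (hx i), pow_mul]
  have h2 : ∑ i ∈ univ.filter (fun i => Odd (ε i)), om (x i) =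
      ((∑ i, ArithmeticFunction.cardFactors (x i) * ε i : ℕ) : ZMod 2) := by
    rw [Finset.sum_filter]
    push_cast
    refine Finset.sum_congr rfl fun i _ => ?_
    by_cases ho : Odd (ε i)
    · rw [if_pos ho, (ZMod.natCast_eq_one_iff_odd).2 ho, mul_one]
      rfl
    · rw [if_neg ho, (ZMod.natCast_eq_zero_iff_even).2 (Nat.not_odd_iff_even.1 ho), mul_zero]
  rw [h2]
  rw [h1] at h
  by_cases he : Even (∑ i, ArithmeticFunction.cardFactors (x i) * ε i)
  · rw [he.neg_one_pow] at h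
    rw [(ZMod.natCast_eq_zero_iff_even).2 he]
    rcases hσ with rfl | rfl
    · simp
    · exact absurd (neg_neg (1 : ℤ)).symm h
  · have ho := Nat.not_even_iff_odd.1 he
    rw [ho.neg_one_pow] at h
    rw [(ZMod.natCast_eq_one_iff_odd).2 ho]
    rcases hσ with rfl | rfl
    · exact absurd rfl h
    · simp

lemma crt_two {m n : ℤ} (h : IsCoprime m n) (a b : ℤ) : ∃ x : ℤ, m ∣ x - a ∧ n ∣ x - b := by
  obtain ⟨u, v, huv⟩ := h
  refine ⟨b * (u * m) + a * (v * n), ?_, ?_⟩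
  · refine ⟨(b - a) * u, ?_⟩
    have : v * n = 1 - u * m := by linarith
    rw [this]
    ring
  · refine ⟨(a - b) * v, ?_⟩
    have : u * m = 1 - v * n := by linarith
    rw [this]
    ring

lemma crt {ι : Type*} [DecidableEq ι] (s : Finset ι) (m c : ι → ℤ)
    (h : ∀ i ∈ s, ∀ j ∈ s, i ≠ j → IsCoprime (m i) (m j)) :
    ∃ x : ℤ, ∀ i ∈ s, m i ∣ x - c i := by
  induction s using Finset.induction_on with
  | empty => exact ⟨0, by simp⟩
  | insert j s hj ih =>
    obtain ⟨x, hx⟩ := ih fun a ha b hb hab =>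
      h a (mem_insert_of_mem ha) b (mem_insert_of_mem hb) hab
    have hcop : IsCoprime (m j) (∏ i ∈ s, m i) :=
      IsCoprime.prod_right fun i hi => h j (mem_insert_self _ _) i (mem_insert_of_mem hi)
        (by rintro rfl; exact hj hi)
    obtain ⟨y, hy1, hy2⟩ := crt_two hcop (c j) x
    refine ⟨y, fun i hi => ?_⟩
    rcases mem_insert.1 hi with rfl | hi
    · exact hy1
    · have h1 : m i ∣ y - x := (Finset.dvd_prod_of_mem _ hi).trans hy2
      have h2 := dvd_add h1 (hx i hi)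
      rwa [sub_add_sub_cancel] at h2

/-- The number of `u < M` in a class modulo `Q` with `u + c` divisible by the square of a prime
larger than `w`. -/
lemma card_nonsq_le (Q w : ℕ) (hQ : 0 < Q) (hw : 0 < w)
    (hsq : ∀ p : ℕ, p.Prime → w < p → ¬ p ^ 2 ∣ Q) (c : ℤ) (u₀ M C : ℕ) (hc : |c| ≤ C)
    (T : Finset ℕ) (hT : ∀ u ∈ T, u < M ∧ u ≡ u₀ [MOD Q] ∧ 0 < (u : ℤ) + c ∧
      ∃ p : ℕ, p.Prime ∧ w < p ∧ (p : ℤ) ^ 2 ∣ (u : ℤ) + c) :
    (T.card : ℝ) ≤ M / Q * (1 / w + ∑ p ∈ Q.primeFactors.filter (fun p => w < p), (1 : ℝ) / p) +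
      (Nat.sqrt (M + C) : ℝ) := by
  classical
  set R := Nat.sqrt (M + C) with hR
  set P := (Ioc w R).filter Nat.Prime with hP
  have hsub : T ⊆ P.biUnion fun p => T.filter fun u : ℕ => ((p : ℤ) ^ 2 ∣ (u : ℤ) + c) := by
    intro u hu
    obtain ⟨h1, h2, h3, p, hp, hwp, hd⟩ := hT u hu
    rw [mem_biUnion]
    refine ⟨p, ?_, mem_filter.2 ⟨hu, hd⟩⟩
    rw [hP, mem_filter, mem_Ioc]
    refine ⟨⟨hwp, ?_⟩, hp⟩
    rw [hR, Nat.le_sqrt']
    have h4 : (p : ℤ) ^ 2 ≤ (u : ℤ) + c := Int.le_of_dvd h3 hd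
    have h5 := le_abs_self c
    have h6 : ((p ^ 2 : ℕ) : ℤ) ≤ ((M + C : ℕ) : ℤ) := by
      push_cast
      omega
    exact_mod_cast h6
  have hcard : (T.card : ℝ) ≤
      ∑ p ∈ P, ((T.filter fun u : ℕ => ((p : ℤ) ^ 2 ∣ (u : ℤ) + c)).card : ℝ) := by
    exact_mod_cast (Finset.card_le_card hsub).trans Finset.card_biUnion_le
  have hMR : (0 : ℝ) ≤ M / Q := by positivity
  have hQR : (0 : ℝ) < Q := by exact_mod_cast hQ
  have hp1 : ∀ p ∈ P, ((T.filter fun u : ℕ => ((p : ℤ) ^ 2 ∣ (u : ℤ) + c)).card : ℝ) ≤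
      M / Q * (1 / (p : ℝ) ^ 2 + if p ∣ Q then 1 / (p : ℝ) else 0) + 1 := by
    intro p hp
    rw [hP, mem_filter, mem_Ioc] at hp
    have hpp := hp.2
    have hp0 : (0 : ℝ) < p := by exact_mod_cast hpp.pos
    have hmod : ∀ y ∈ T.filter (fun u : ℕ => ((p : ℤ) ^ 2 ∣ (u : ℤ) + c)),
        ∀ z ∈ T.filter (fun u : ℕ => ((p : ℤ) ^ 2 ∣ (u : ℤ) + c)),
        y ≡ z [MOD Q] ∧ y ≡ z [MOD p ^ 2] := by
      intro y hy z hz
      rw [mem_filter] at hy hz
      refine ⟨(hT y hy.1).2.1.trans (hT z hz.1).2.1.symm, ?_⟩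
      rw [← Int.natCast_modEq_iff, Int.modEq_iff_dvd]
      have := dvd_sub hz.2 hy.2
      push_cast
      rwa [add_sub_add_right_eq_sub] at this
    by_cases hpQ : p ∣ Q
    · obtain ⟨Q', hQ'⟩ := hpQ
      have hQ'0 : 0 < Q' := Nat.pos_of_ne_zero (by rintro rfl; simp at hQ'; omega)
      have hpQ' : ¬ p ∣ Q' := by
        intro h
        apply hsq p hpp hp.1.1
        rw [hQ', pow_two]
        exact Nat.mul_dvd_mul_left p h
      have hcop : Nat.Coprime Q' (p ^ 2) := by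
        apply Nat.Coprime.pow_right
        exact ((hpp.coprime_iff_not_dvd).2 hpQ').symm
      have h1 := card_class_le M (Q' * p ^ 2) (Nat.mul_pos hQ'0 (pow_pos hpp.pos 2))
        (T.filter fun u : ℕ => ((p : ℤ) ^ 2 ∣ (u : ℤ) + c))
        (fun y hy => (hT y (mem_filter.1 hy).1).1) (by
          intro y hy z hz
          obtain ⟨h2, h3⟩ := hmod y hy z hz
          rw [← Nat.modEq_and_modEq_iff_modEq_mul hcop]
          refine ⟨h2.of_dvd ?_, h3⟩
          exact ⟨p, by rw [hQ']; ring⟩)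
      refine h1.trans ?_
      have h2 : ((Q' * p ^ 2 : ℕ) : ℝ) = Q * p := by
        rw [hQ']
        push_cast
        ring
      rw [h2, if_pos ⟨Q', hQ'⟩]
      have h3 : (M : ℝ) / (Q * p) = M / Q * (1 / p) := by
        field_simp
      rw [h3]
      have h4 : 0 ≤ (M : ℝ) / Q * (1 / (p : ℝ) ^ 2) := by positivity
      linarith
    · have hcop : Nat.Coprime Q (p ^ 2) := by
        apply Nat.Coprime.pow_right
        exact ((hpp.coprime_iff_not_dvd).2 hpQ).symm
      have h1 := card_class_le M (Q * p ^ 2) (Nat.mul_pos hQ (pow_pos hpp.pos 2))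
        (T.filter fun u : ℕ => ((p : ℤ) ^ 2 ∣ (u : ℤ) + c))
        (fun y hy => (hT y (mem_filter.1 hy).1).1) (by
          intro y hy z hz
          obtain ⟨h2, h3⟩ := hmod y hy z hz
          rw [← Nat.modEq_and_modEq_iff_modEq_mul hcop]
          exact ⟨h2, h3⟩)
      refine h1.trans ?_
      rw [if_neg hpQ, add_zero]
      have h3 : (M : ℝ) / ((Q * p ^ 2 : ℕ) : ℝ) = M / Q * (1 / (p : ℝ) ^ 2) := by
        push_cast
        field_simp
      rw [h3]
  refine hcard.trans ((Finset.sum_le_sum hp1).trans ?_)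
  rw [Finset.sum_add_distrib, ← Finset.mul_sum, Finset.sum_add_distrib]
  have s1 : ∑ p ∈ P, (1 : ℝ) / (p : ℝ) ^ 2 ≤ 1 / (w : ℝ) := by
    refine le_trans ?_ (sum_inv_sq_le (w := w) (R := R) hw)
    exact Finset.sum_le_sum_of_subset_of_nonneg (Finset.filter_subset _ _)
      fun _ _ _ => by positivity
  have s2 : ∑ p ∈ P, (if p ∣ Q then (1 : ℝ) / (p : ℝ) else 0) ≤
      ∑ p ∈ Q.primeFactors.filter (fun p => w < p), (1 : ℝ) / p := by
    rw [← Finset.sum_filter]
    refine Finset.sum_le_sum_of_subset_of_nonneg ?_ fun _ _ _ => by positivity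
    intro p hp
    rw [mem_filter, hP, mem_filter, mem_Ioc] at hp
    rw [mem_filter, Nat.mem_primeFactors]
    exact ⟨⟨hp.1.2, hp.2, hQ.ne'⟩, hp.1.1.1⟩
  have s3 : ∑ p ∈ P, (1 : ℝ) ≤ R := by
    rw [Finset.sum_const, nsmul_eq_mul, mul_one]
    have : P.card ≤ R := by
      refine (Finset.card_filter_le _ _).trans ?_
      rw [Nat.card_Ioc]
      omega
    exact_mod_cast this
  have s4 := mul_le_mul_of_nonneg_left (add_le_add s1 s2) hMR
  linarith

end Pool.Agent.H27.MR
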