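import Pool.Agent.H27.MR.Key

/-!
# Set-up for module RA
-/

set_option autoImplicit false

namespace Pool.Agent.H27.MR

open Finset
open Pool.Agent.H24.MR (lam)

/-- The sign identity at one point. -/
theorem point {r : ℕ} (α : Fin r → ℤ) (ε : Fin r → ℕ) (σ : ℤ) (hσ : σ = 1 ∨ σ = -1) (i₁ : Fin r)
    (hodd : Odd (ε i₁)) (K : ℕ) (S : Finset (ℤ × ℤ))
    (hS0 : ∀ i ∈ univ.filter (fun i => Odd (ε i)), i ≠ i₁ → ∀ H : ℤ → ZMod 2,
      ∑ f ∈ S, H (f.1 * α i - f.2) = 0)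
    (hS1 : ∀ H : ℤ → ZMod 2, ∑ f ∈ S, H (f.1 * α i₁ - f.2) = H 0 + H K)
    (W A : ℕ) (d : ℤ × ℤ → ℕ) (n : ℤ × ℤ → ℤ) (y : ℕ) (hd : ∀ f ∈ S, 0 < d f)
    (hX : ∀ f ∈ S, ∀ i, (d f : ℤ) * (n f + α i) =
      y + (α i - α i₁) * (1 + W * A) + W * (f.1 * α i - f.2))
    (hpos : ∀ f ∈ S, ∀ i, 0 < n f + α i)
    (hsqf : ∀ f ∈ S, ∀ i, Squarefree (n f + α i).toNat)
    (hne : ∀ f ∈ S, ∏ i, ArithmeticFunction.moebius ((n f + α i).toNat) ^ ε i ≠ -σ) :
    lam y * lam (y + W * K) =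
      sgn ((univ.filter (fun i => Odd (ε i))).card • (∑ f ∈ S, om (d f)) +
        S.card • (if σ = 1 then 0 else 1 : ZMod 2)) := by
  set I := univ.filter (fun i => Odd (ε i)) with hI
  have hi₁ : i₁ ∈ I := by rw [hI, mem_filter]; exact ⟨mem_univ _, hodd⟩
  set H : Fin r → ℤ → ZMod 2 := fun i v =>
    om ((y : ℤ) + (α i - α i₁) * (1 + W * A) + W * v).toNat with hH
  have h1 : ∑ i ∈ I, ∑ f ∈ S, H i (f.1 * α i - f.2) = om y + om (y + W * K) := by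
    rw [Finset.sum_eq_single i₁ (fun i hi hne => hS0 i hi hne (H i)) (fun h => absurd hi₁ h),
      hS1 (H i₁)]
    simp only [hH]
    congr 2
    · simp
    · rw [sub_self, zero_mul, add_zero]
      have : ((y : ℤ) + W * K) = ((y + W * K : ℕ) : ℤ) := by push_cast; ring
      rw [this, Int.toNat_natCast]
  have h2 : ∀ i ∈ I, ∀ f ∈ S, H i (f.1 * α i - f.2) = om (d f) + om (n f + α i).toNat := by
    intro i _ f hf
    simp only [hH]
    rw [← hX f hf i]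
    have h3 : ((d f : ℤ) * (n f + α i)).toNat = d f * (n f + α i).toNat := by
      have h4 : (n f + α i) = ((n f + α i).toNat : ℤ) := (Int.toNat_of_nonneg (hpos f hf i).le).symm
      conv_lhs => rw [h4, ← Nat.cast_mul, Int.toNat_natCast]
    rw [h3, om_mul (hd f hf).ne']
    have := hpos f hf i
    omega
  have h3 : ∑ i ∈ I, ∑ f ∈ S, H i (f.1 * α i - f.2) =
      I.card • (∑ f ∈ S, om (d f)) + S.card • (if σ = 1 then 0 else 1 : ZMod 2) := by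
    have h4 : ∀ i ∈ I, ∑ f ∈ S, H i (f.1 * α i - f.2) =
        ∑ f ∈ S, om (d f) + ∑ f ∈ S, om (n f + α i).toNat := by
      intro i hi
      rw [← Finset.sum_add_distrib]
      exact Finset.sum_congr rfl fun f hf => h2 i hi f hf
    rw [Finset.sum_congr rfl h4, Finset.sum_add_distrib, Finset.sum_const, Finset.sum_comm]
    congr 1
    have h5 : ∀ f ∈ S, ∑ i ∈ I, om (n f + α i).toNat = (if σ = 1 then 0 else 1 : ZMod 2) :=
      fun f hf => sum_om_of_ne (fun i => (n f + α i).toNat) (hsqf f hf) ε σ hσ (hne f hf)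
    rw [Finset.sum_congr rfl h5, Finset.sum_const]
  rw [lam_eq_sgn, lam_eq_sgn, ← sgn_add, ← h1, h3]

lemma sum_biUnion_le {ι : Type*} [DecidableEq ι] (s : Finset ι) (t : ι → Finset ℕ) (g : ℕ → ℝ)
    (hg : ∀ n, 0 ≤ g n) : ∑ n ∈ s.biUnion t, g n ≤ ∑ i ∈ s, ∑ n ∈ t i, g n := by
  induction s using Finset.induction_on with
  | empty => simp
  | insert j s hj ih =>
    rw [Finset.biUnion_insert, Finset.sum_insert hj]
    have h1 := Finset.sum_union_inter (s₁ := t j) (s₂ := s.biUnion t) (f := g)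
    have h2 : 0 ≤ ∑ n ∈ t j ∩ s.biUnion t, g n := Finset.sum_nonneg fun n _ => hg n
    linarith

/-- The moduli and the class. -/
theorem exists_data {r : ℕ} (α : Fin r → ℤ) (i₁ : Fin r) (S : Finset (ℤ × ℤ))
    (hS : Set.InjOn Prod.fst (S : Set (ℤ × ℤ))) (q : ℕ) (hq : 0 < q) (n₀ : ℕ) (δ : ℝ)
    (hδ : 0 < δ) (wb : ℕ) :
    ∃ (w A Q u₀ : ℕ) (d : ℤ × ℤ → ℕ), wb ≤ w ∧ q ≤ w ∧ 2 ≤ w ∧ 0 < Q ∧ Even Q ∧ WW q w ∣ Q ∧
      (∀ f ∈ S, 2 ≤ d f ∧ (d f : ℤ) = 1 + WW q w * (f.1 + A)) ∧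
      (∀ p : ℕ, p.Prime → w < p → ¬ p ^ 2 ∣ Q) ∧
      (∑ p ∈ Q.primeFactors.filter (fun p => w < p), (1 : ℝ) / p ≤ S.card * δ) ∧
      (∀ y : ℕ, y ≡ u₀ [MOD Q] →
        ((WW q w : ℕ) : ℤ) ∣ (y - α i₁ * (1 + WW q w * A)) - n₀ ∧
        ∀ f ∈ S, (d f : ℤ) ∣ (y - α i₁ * (1 + WW q w * A)) - WW q w * f.2) := by
  classical
  -- initial shift making everything positive
  obtain ⟨A₀, hA₀⟩ : ∃ A₀ : ℕ, ∀ f ∈ S, 1 ≤ f.1 + (A₀ : ℤ) := by
    refine ⟨(∑ f ∈ S, f.1.natAbs) + 1, fun f hf => ?_⟩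
    have h1 : f.1.natAbs ≤ ∑ f ∈ S, f.1.natAbs :=
      Finset.single_le_sum (f := fun f : ℤ × ℤ => f.1.natAbs) (fun _ _ => Nat.zero_le _) hf
    push_cast
    have h2 : ((f.1.natAbs : ℕ) : ℤ) ≤ ((∑ f ∈ S, f.1.natAbs : ℕ) : ℤ) := by exact_mod_cast h1
    push_cast at h2
    have h3 := neg_abs_le f.1
    linarith
  set S' : Finset ℕ := S.image (fun f : ℤ × ℤ => (f.1 + (A₀ : ℤ)).toNat) with hS'
  obtain ⟨w₀, hw₀⟩ := exists_shift S' q hq δ hδ
  set w := w₀ + wb + q + 2 + S'.sup id with hw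
  have hwq : q ≤ w := by omega
  obtain ⟨A₁, hA₁⟩ := hw₀ w (by omega)
  set W := WW q w with hW
  have hWpos : 0 < W := WW_pos hq w
  have hmem : ∀ f ∈ S, (f.1 + (A₀ : ℤ)).toNat ∈ S' := fun f hf =>
    mem_image_of_mem (fun f : ℤ × ℤ => (f.1 + (A₀ : ℤ)).toNat) hf
  have hcast : ∀ f ∈ S, (((f.1 + (A₀ : ℤ)).toNat : ℕ) : ℤ) = f.1 + A₀ := fun f hf =>
    Int.toNat_of_nonneg (by have := hA₀ f hf; omega)
  set d : ℤ × ℤ → ℕ := fun f => 1 + W * ((f.1 + (A₀ : ℤ)).toNat + A₁) with hd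
  have hdcast : ∀ f ∈ S, (d f : ℤ) = 1 + W * (f.1 + ((A₀ + A₁ : ℕ) : ℤ)) := by
    intro f hf
    simp only [hd]
    push_cast
    have := hcast f hf
    push_cast at this
    rw [this]
    ring
  have hd2 : ∀ f ∈ S, 2 ≤ d f := by
    intro f hf
    have h1 : 1 ≤ (f.1 + (A₀ : ℤ)).toNat := by
      have := hA₀ f hf
      omega
    have h2 : 1 * 1 ≤ W * ((f.1 + (A₀ : ℤ)).toNat + A₁) := Nat.mul_le_mul hWpos (by omega)
    simp only [hd]
    omega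
  have hsf : ∀ f ∈ S, Squarefree (d f) := fun f hf => (hA₁ _ (hmem f hf)).1
  have hlt : ∀ f, ∀ p : ℕ, p.Prime → p ∣ d f → w < p := fun f p hp h => lt_of_dvd hp h
  have hcop : ∀ f ∈ S, ∀ g ∈ S, f ≠ g → Nat.Coprime (d f) (d g) := by
    intro f hf g hg hfg
    rw [Nat.coprime_iff_gcd_eq_one]
    by_contra hc
    obtain ⟨p, hp, hpd⟩ := Nat.exists_prime_and_dvd hc
    have h1 : p ∣ d f := hpd.trans (Nat.gcd_dvd_left _ _)
    have h2 : p ∣ d g := hpd.trans (Nat.gcd_dvd_right _ _)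
    have hwp := hlt f p hp h1
    have h3 : (p : ℤ) ∣ W * (f.1 - g.1) := by
      have h4 : ((p : ℕ) : ℤ) ∣ (d f : ℤ) - d g :=
        dvd_sub (Int.natCast_dvd_natCast.2 h1) (Int.natCast_dvd_natCast.2 h2)
      rw [hdcast f hf, hdcast g hg] at h4
      have h5 : (1 : ℤ) + W * (f.1 + ((A₀ + A₁ : ℕ) : ℤ)) - (1 + W * (g.1 + ((A₀ + A₁ : ℕ) : ℤ))) =
        W * (f.1 - g.1) := by ring
      rwa [h5] at h4
    have hpW : ¬ p ∣ W := by
      intro h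
      have := (dvd_WW_iff hq hwq hp).1 h
      omega
    have hpI : Prime (p : ℤ) := Nat.prime_iff_prime_int.1 hp
    have h4 : (p : ℤ) ∣ f.1 - g.1 := by
      rcases hpI.dvd_or_dvd h3 with h | h
      · exact absurd (Int.natCast_dvd_natCast.1 h) hpW
      · exact h
    have hne : f.1 - g.1 ≠ 0 := by
      intro h
      exact hfg (hS hf hg (by omega))
    have hle : ∀ f ∈ S, (f.1 + (A₀ : ℤ)).toNat ≤ w := fun f hf => by
      have : (f.1 + (A₀ : ℤ)).toNat ≤ S'.sup id := Finset.le_sup (f := id) (hmem f hf)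
      omega
    have h5 := Int.natAbs_dvd_natAbs.2 h4
    have h6 := Nat.le_of_dvd (Int.natAbs_pos.2 hne) h5
    have h7 := hle f hf
    have h8 := hle g hg
    have h9 := hcast f hf
    have h10 := hcast g hg
    rw [Int.natAbs_natCast] at h6
    omega
  set Q := W * ∏ f ∈ S, d f with hQ
  have hDpos : 0 < ∏ f ∈ S, d f := Finset.prod_pos fun f hf => by
    have := hd2 f hf
    omega
  have hQpos : 0 < Q := Nat.mul_pos hWpos hDpos
  -- the class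
  obtain ⟨x₁, hx₁⟩ := crt S (fun f => (d f : ℤ)) (fun f => W * f.2) (fun f hf g hg hfg =>
    (Nat.isCoprime_iff_coprime).2 (hcop f hf g hg hfg))
  have hWD : IsCoprime (W : ℤ) (∏ f ∈ S, (d f : ℤ)) := by
    refine IsCoprime.prod_right fun f hf => ?_
    refine ⟨-(f.1 + ((A₀ + A₁ : ℕ) : ℤ)), 1, ?_⟩
    rw [hdcast f hf]
    ring
  obtain ⟨x₂, hx₂, hx₃⟩ := crt_two hWD n₀ x₁
  set z : ℤ := x₂ + α i₁ * (1 + W * ((A₀ + A₁ : ℕ) : ℤ)) with hz
  have hQZ : (0 : ℤ) < Q := by exact_mod_cast hQpos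
  refine ⟨w, A₀ + A₁, Q, (z % Q).toNat, d, by omega, hwq, by omega, hQpos, ?_, ⟨_, rfl⟩,
    fun f hf => ⟨hd2 f hf, hdcast f hf⟩, ?_, ?_, ?_⟩
  · rw [even_iff_two_dvd]
    have h1 : 2 ∣ W := (dvd_WW_iff hq hwq Nat.prime_two).2 (by omega)
    exact h1.trans (Dvd.intro _ rfl)
  · intro p hp hwp hdvd
    have hpW : ¬ p ∣ W := by
      intro h
      have := (dvd_WW_iff hq hwq hp).1 h
      omega
    have hc : Nat.Coprime (p ^ 2) W := Nat.Coprime.pow_left 2 ((hp.coprime_iff_not_dvd).2 hpW)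
    have h1 : p ^ 2 ∣ ∏ f ∈ S, d f := hc.dvd_of_dvd_mul_left hdvd
    have h2 : Squarefree (∏ f ∈ S, d f) := by
      apply Finset.squarefree_prod_of_pairwise_isCoprime _ hsf
      intro f hf g hg hfg
      exact Nat.coprime_iff_isRelPrime.1 (hcop f hf g hg hfg)
    have h3 := h2 p (by rwa [← pow_two])
    exact hp.one_lt.ne' (Nat.isUnit_iff.1 h3)
  · have h1 : Q.primeFactors.filter (fun p => w < p) ⊆ S.biUnion fun f => (d f).primeFactors := by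
      intro p hp
      rw [mem_filter, Nat.mem_primeFactors] at hp
      obtain ⟨⟨hpp, hpQ, -⟩, hwp⟩ := hp
      have hpW : ¬ p ∣ W := by
        intro h
        have := (dvd_WW_iff hq hwq hpp).1 h
        omega
      have h2 : p ∣ ∏ f ∈ S, d f := (hpp.dvd_mul.1 hpQ).resolve_left hpW
      obtain ⟨f, hf, hpf⟩ := (hpp.prime.dvd_finset_prod_iff _).1 h2
      rw [mem_biUnion]
      exact ⟨f, hf, Nat.mem_primeFactors.2 ⟨hpp, hpf, by have := hd2 f hf; omega⟩⟩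
    refine (Finset.sum_le_sum_of_subset_of_nonneg h1 fun _ _ _ => by positivity).trans ?_
    refine (sum_biUnion_le S _ _ fun n => by positivity).trans ?_
    refine (Finset.sum_le_card_nsmul _ _ δ fun f hf => (hA₁ _ (hmem f hf)).2).trans ?_
    rw [nsmul_eq_mul]
  · intro y hy
    have h1 : (Q : ℤ) ∣ (y : ℤ) - z := by
      have h2 := (Int.natCast_modEq_iff.2 hy)
      have h3 : (((z % Q).toNat : ℕ) : ℤ) = z % Q := Int.toNat_of_nonneg (Int.emod_nonneg _ hQZ.ne')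
      rw [h3] at h2
      have h4 : (y : ℤ) ≡ z [ZMOD Q] := h2.trans (Int.mod_modEq _ _)
      exact (Int.modEq_iff_dvd.1 h4.symm)
    have h2 : (y : ℤ) - α i₁ * (1 + W * ((A₀ + A₁ : ℕ) : ℤ)) = (y - z) + x₂ := by
      rw [hz]
      ring
    rw [h2]
    constructor
    · have h3 : (W : ℤ) ∣ (Q : ℤ) := Int.natCast_dvd_natCast.2 ⟨_, rfl⟩
      have h4 := dvd_add (h3.trans h1) hx₂
      rwa [← add_sub_assoc] at h4
    · intro f hf
      have h3 : (d f : ℤ) ∣ (Q : ℤ) := Int.natCast_dvd_natCast.2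
        ((Finset.dvd_prod_of_mem _ hf).trans (Dvd.intro_left _ rfl))
      have h4 : (d f : ℤ) ∣ ∏ f ∈ S, (d f : ℤ) := Finset.dvd_prod_of_mem _ hf
      have h5 := dvd_add (dvd_add (h3.trans h1) (h4.trans hx₃)) (hx₁ f hf)
      have h6 : (y : ℤ) - z + (x₂ - x₁) + (x₁ - W * f.2) = (y : ℤ) - z + x₂ - W * f.2 := by ring
      rwa [h6] at h5

end Pool.Agent.H27.MR
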